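import Pool.Agent.Helper17.SM.Sup
import Pool.Agent.Helper17.SM.Avg

/-!
The entropy of every subset, from averages over the orders.
-/

set_option autoImplicit false

open Finset

namespace Pool.Agent.Helper63.SM

section am

variable {k : ℕ}

theorem am_const (c : ℝ) : avg (fun _ : Equiv.Perm (Fin k) => c) = c := by
  unfold avg
  have h : (0:ℝ) < (k.factorial : ℝ) := by exact_mod_cast k.factorial_pos
  rw [Finset.sum_const, Finset.card_univ, Fintype.card_perm, Fintype.card_fin, nsmul_eq_mul]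
  field_simp

theorem am_mono {g g' : Equiv.Perm (Fin k) → ℝ} (h : ∀ e, g e ≤ g' e) : avg g ≤ avg g' :=
  div_le_div_of_nonneg_right (Finset.sum_le_sum fun e _ => h e) (by positivity)

theorem am_add (g g' : Equiv.Perm (Fin k) → ℝ) : avg (fun e => g e + g' e) = avg g + avg g' := by
  unfold avg
  rw [Finset.sum_add_distrib, add_div]

theorem am_sub (g g' : Equiv.Perm (Fin k) → ℝ) : avg (fun e => g e - g' e) = avg g - avg g' := by
  unfold avg
  rw [Finset.sum_sub_distrib, sub_div]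

theorem am_mul (c : ℝ) (g : Equiv.Perm (Fin k) → ℝ) : avg (fun e => c * g e) = c * avg g := by
  unfold avg
  rw [← Finset.mul_sum, mul_div_assoc]

theorem am_sum {ι : Type*} (s : Finset ι) (g : ι → Equiv.Perm (Fin k) → ℝ) :
    avg (fun e => ∑ i ∈ s, g i e) = ∑ i ∈ s, avg (g i) := by
  unfold avg
  rw [Finset.sum_comm, Finset.sum_div]

theorem am_reindex (σ : Equiv.Perm (Fin k)) (g : Equiv.Perm (Fin k) → ℝ) :
    avg (fun e => g (e * σ)) = avg g := by
  unfold avg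
  congr 1
  exact Equiv.sum_comp (Equiv.mulRight σ) g

theorem am_mem {e : Equiv.Perm (Fin k)} {t : ℕ} {i : Fin k} :
    i ∈ ch e t ↔ ((e.symm i : Fin k) : ℕ) < t := by
  simp [ch]

theorem am_ch_zero (e : Equiv.Perm (Fin k)) : ch e 0 = ∅ := by
  ext i
  simp [am_mem]

theorem am_ch_top (e : Equiv.Perm (Fin k)) : ch e k = Finset.univ := by
  ext i
  simp [am_mem]

theorem am_notMem (e : Equiv.Perm (Fin k)) {t : ℕ} (ht : t < k) : e ⟨t, ht⟩ ∉ ch e t := by
  simp [am_mem]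

theorem am_ch_succ (e : Equiv.Perm (Fin k)) {t : ℕ} (ht : t < k) :
    ch e (t + 1) = insert (e ⟨t, ht⟩) (ch e t) := by
  ext i
  rw [Finset.mem_insert, am_mem, am_mem]
  have h : i = e ⟨t, ht⟩ ↔ ((e.symm i : Fin k) : ℕ) = t := by
    rw [← Equiv.symm_apply_eq, Fin.ext_iff]
  rw [h]
  omega

theorem am_card (e : Equiv.Perm (Fin k)) {t : ℕ} (ht : t ≤ k) : (ch e t).card = t := by
  induction t with
  | zero => rw [am_ch_zero, Finset.card_empty]
  | succ t ih =>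
    rw [am_ch_succ e ht, Finset.card_insert_of_notMem (am_notMem e ht), ih (by omega)]

theorem am_ch_mono (e : Equiv.Perm (Fin k)) {s t : ℕ} (h : s ≤ t) : ch e s ⊆ ch e t := by
  intro i hi
  rw [am_mem] at hi ⊢
  omega

theorem am_swap {t : ℕ} (ht : t + 1 < k) (Φ : Finset (Fin k) → ℝ) :
    avg (fun e : Equiv.Perm (Fin k) => Φ (insert (e ⟨t + 1, ht⟩) (ch e t))) =
      avg (fun e : Equiv.Perm (Fin k) => Φ (ch e (t + 1))) := by
  have ht' : t < k := by omega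
  rw [← am_reindex (Equiv.swap (⟨t, ht'⟩ : Fin k) ⟨t + 1, ht⟩)
    (fun e : Equiv.Perm (Fin k) => Φ (insert (e ⟨t + 1, ht⟩) (ch e t)))]
  congr 1
  ext e
  have h1 : (e * Equiv.swap (⟨t, ht'⟩ : Fin k) ⟨t + 1, ht⟩) ⟨t + 1, ht⟩ = e ⟨t, ht'⟩ := by
    rw [Equiv.Perm.mul_apply, Equiv.swap_apply_right]
  have h2 : ch (e * Equiv.swap (⟨t, ht'⟩ : Fin k) ⟨t + 1, ht⟩) t = ch e t := by
    ext i
    rw [am_mem, am_mem]
    have h3 : (e * Equiv.swap (⟨t, ht'⟩ : Fin k) ⟨t + 1, ht⟩).symm i =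
        Equiv.swap (⟨t, ht'⟩ : Fin k) ⟨t + 1, ht⟩ (e.symm i) := rfl
    rw [h3]
    by_cases ha : e.symm i = ⟨t, ht'⟩
    · rw [ha, Equiv.swap_apply_left]
      simp
    · by_cases hb : e.symm i = ⟨t + 1, ht⟩
      · rw [hb, Equiv.swap_apply_right]
        simp
      · rw [Equiv.swap_apply_of_ne_of_ne ha hb]
  rw [h1, h2, am_ch_succ e ht']

theorem am_harm (c : ℕ → ℝ) (K : ℕ) :
    ∑ s ∈ range K, ∑ r ∈ range s, c r = ∑ r ∈ range K, ((K : ℝ) - 1 - r) * c r := by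
  induction K with
  | zero => simp
  | succ K ih =>
    rw [Finset.sum_range_succ, ih, Finset.sum_range_succ, ← Finset.sum_add_distrib]
    have : (((K + 1 : ℕ) : ℝ) - 1 - K) * c K = 0 := by push_cast; ring
    rw [this, add_zero]
    apply Finset.sum_congr rfl
    intro r _
    push_cast; ring

theorem am_harm_le : ∑ s ∈ range k, ∑ r ∈ range s, 1 / ((k : ℝ) - r - 1) ≤ k := by
  rw [am_harm]
  calc ∑ r ∈ range k, ((k : ℝ) - 1 - r) * (1 / ((k : ℝ) - r - 1)) ≤ ∑ r ∈ range k, (1:ℝ) := by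
        apply Finset.sum_le_sum
        intro r _
        rw [mul_one_div, show (k : ℝ) - 1 - r = k - r - 1 by ring]
        exact div_self_le_one _
    _ = k := by simp

theorem am_arith (s t : ℕ) (h : s ≤ t) : ∑ r ∈ Ico s t, (r : ℝ) = ((t : ℝ) * (t - 1) - s * (s - 1)) / 2 := by
  induction t, h using Nat.le_induction with
  | base => simp
  | succ t ht ih =>
    rw [Finset.sum_Ico_succ_top ht, ih]
    push_cast; ring

/-- the second differences of the averages -/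
theorem am_second (Φ : Finset (Fin k) → ℝ) (h : Finset (Fin k) → Fin k → ℝ) {p η : ℝ} (hp : 0 ≤ p)
    (hη1 : η ≤ 1) (h0 : ∀ S i, 0 ≤ h S i)
    (hsum : ∀ S : Finset (Fin k), p * ((k : ℝ) - S.card) ^ 2 * (1 - η) -
        2 * p * ((k : ℝ) - S.card) * ∑ i ∈ Sᶜ, h S i - ((k : ℝ) - S.card) ≤
      ∑ i ∈ Sᶜ, ∑ j ∈ Sᶜ.erase i,
        (Φ (insert i (insert j S)) + Φ S - Φ (insert i S) - Φ (insert j S)))
    {t : ℕ} (ht : t + 1 < k) :
    p * (1 - η) - 4 * p * avg (fun e : Equiv.Perm (Fin k) => h (ch e t) (e ⟨t, by omega⟩)) -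
        1 / ((k : ℝ) - t - 1) ≤
      (avg (fun e : Equiv.Perm (Fin k) => Φ (ch e (t + 2))) -
        avg (fun e : Equiv.Perm (Fin k) => Φ (ch e (t + 1)))) -
      (avg (fun e : Equiv.Perm (Fin k) => Φ (ch e (t + 1))) -
        avg (fun e : Equiv.Perm (Fin k) => Φ (ch e t))) := by
  have ht' : t < k := by omega
  have h1 := avg_two ht (fun S i j => Φ (insert i (insert j S)) + Φ S - Φ (insert i S) - Φ (insert j S))
  have h2 : avg (fun e : Equiv.Perm (Fin k) => Φ (insert (e ⟨t, ht'⟩) (insert (e ⟨t + 1, ht⟩) (ch e t))) +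
      Φ (ch e t) - Φ (insert (e ⟨t, ht'⟩) (ch e t)) - Φ (insert (e ⟨t + 1, ht⟩) (ch e t))) =
      (avg (fun e : Equiv.Perm (Fin k) => Φ (ch e (t + 2))) -
        avg (fun e : Equiv.Perm (Fin k) => Φ (ch e (t + 1)))) -
      (avg (fun e : Equiv.Perm (Fin k) => Φ (ch e (t + 1))) -
        avg (fun e : Equiv.Perm (Fin k) => Φ (ch e t))) := by
    have h3 : (fun e : Equiv.Perm (Fin k) => Φ (insert (e ⟨t, ht'⟩) (insert (e ⟨t + 1, ht⟩) (ch e t))) +
        Φ (ch e t) - Φ (insert (e ⟨t, ht'⟩) (ch e t)) - Φ (insert (e ⟨t + 1, ht⟩) (ch e t))) =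
        fun e : Equiv.Perm (Fin k) => Φ (ch e (t + 2)) + Φ (ch e t) - Φ (ch e (t + 1)) -
          Φ (insert (e ⟨t + 1, ht⟩) (ch e t)) := by
      ext e
      rw [Finset.insert_comm, ← am_ch_succ e ht', ← am_ch_succ e ht]
    rw [h3, am_sub, am_sub, am_add, am_swap ht]
    ring
  rw [h2] at h1
  have h4 : p * ((k : ℝ) - t) ^ 2 * (1 - η) - 2 * p * ((k : ℝ) - t) *
      (((k : ℝ) - t) * avg (fun e : Equiv.Perm (Fin k) => h (ch e t) (e ⟨t, ht'⟩))) - ((k : ℝ) - t) ≤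
      avg (fun e : Equiv.Perm (Fin k) => ∑ i ∈ (ch e t)ᶜ, ∑ j ∈ (ch e t)ᶜ.erase i,
        (Φ (insert i (insert j (ch e t))) + Φ (ch e t) - Φ (insert i (ch e t)) - Φ (insert j (ch e t)))) := by
    rw [← avg_one ht' h, ← am_mul, ← am_const (k := k) (p * ((k : ℝ) - t) ^ 2 * (1 - η)),
      ← am_const (k := k) ((k : ℝ) - t), ← am_sub, ← am_sub]
    simp only [am_const]
    apply am_mono
    intro e
    have h5 := hsum (ch e t)
    rw [am_card e ht'.le] at h5
    exact h5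
  rw [h1] at h4
  have hm : (2:ℝ) ≤ (k : ℝ) - t := by
    have : ((t + 2 : ℕ) : ℝ) ≤ k := by exact_mod_cast (by omega : t + 2 ≤ k)
    push_cast at this
    linarith
  have hb0 : 0 ≤ avg (fun e : Equiv.Perm (Fin k) => h (ch e t) (e ⟨t, ht'⟩)) := by
    rw [← am_const (k := k) 0]
    exact am_mono fun e => h0 _ _
  set hb := avg (fun e : Equiv.Perm (Fin k) => h (ch e t) (e ⟨t, ht'⟩)) with hhb
  set D := (avg (fun e : Equiv.Perm (Fin k) => Φ (ch e (t + 2))) -
        avg (fun e : Equiv.Perm (Fin k) => Φ (ch e (t + 1)))) -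
      (avg (fun e : Equiv.Perm (Fin k) => Φ (ch e (t + 1))) -
        avg (fun e : Equiv.Perm (Fin k) => Φ (ch e t))) with hD
  set m := (k : ℝ) - t with hmd
  have hm1 : 0 < m - 1 := by linarith
  have hm0 : 0 < m := by linarith
  -- divide by `m`
  have h6 : p * m * (1 - η) - 2 * p * m * hb - 1 ≤ (m - 1) * D := by
    have : m * (p * m * (1 - η) - 2 * p * m * hb - 1) ≤ m * ((m - 1) * D) := by
      calc _ = p * m ^ 2 * (1 - η) - 2 * p * m * (m * hb) - m := by ring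
        _ ≤ _ := h4
        _ = _ := by ring
    exact le_of_mul_le_mul_left this hm0
  have h7 : (m - 1) * (p * (1 - η) - 4 * p * hb - 1 / (m - 1)) ≤ p * m * (1 - η) - 2 * p * m * hb - 1 := by
    have e1 : (m - 1) * (1 / (m - 1)) = 1 := by field_simp
    have e2 : 0 ≤ p * (1 - η) := mul_nonneg hp (by linarith)
    have e3 : 0 ≤ p * hb * (m - 2) := mul_nonneg (mul_nonneg hp hb0) (by linarith)
    nlinarith
  exact le_of_mul_le_mul_left (h7.trans h6) hm1

/-- the average entropy of the first `t` coordinates -/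
theorem am_first (hk : 1 ≤ k) (Φ : Finset (Fin k) → ℝ) (h : Finset (Fin k) → Fin k → ℝ)
    {p η N E : ℝ} (hp : 0 ≤ p) (hη : 0 ≤ η) (hη1 : η ≤ 1) (h0 : ∀ S i, 0 ≤ h S i)
    (hsum : ∀ S : Finset (Fin k), p * ((k : ℝ) - S.card) ^ 2 * (1 - η) -
        2 * p * ((k : ℝ) - S.card) * ∑ i ∈ Sᶜ, h S i - ((k : ℝ) - S.card) ≤
      ∑ i ∈ Sᶜ, ∑ j ∈ Sᶜ.erase i,
        (Φ (insert i (insert j S)) + Φ S - Φ (insert i S) - Φ (insert j S)))
    (hN : ∀ e : Equiv.Perm (Fin k), ∑ t : Fin k, h (ch e t) (e t) ≤ N)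
    (hΦ0 : Φ ∅ = 0) (hΦ1 : ∀ i, 0 ≤ Φ {i})
    (hE : Φ Finset.univ - p / 2 * (k : ℝ) ^ 2 + p / 2 * η * (k : ℝ) ^ 2 + p / 2 * k +
      (4 * p * N + 1) * k ≤ E) {t : ℕ} (ht : t ≤ k) :
    avg (fun e : Equiv.Perm (Fin k) => Φ (ch e t)) ≤ p / 2 * (t : ℝ) ^ 2 + E := by
  obtain ⟨H, hH⟩ : ∃ H : ℕ → ℝ, ∀ t, H t = avg (fun e : Equiv.Perm (Fin k) => Φ (ch e t)) := ⟨_, fun _ => rfl⟩
  obtain ⟨hb, hhb⟩ : ∃ hb : ℕ → ℝ, ∀ t (ht : t < k), hb t = avg (fun e : Equiv.Perm (Fin k) => h (ch e t) (e ⟨t, ht⟩)) :=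
    ⟨fun t => if ht : t < k then avg (fun e : Equiv.Perm (Fin k) => h (ch e t) (e ⟨t, ht⟩)) else 0,
      fun t ht => by simp [ht]⟩
  have hb0 : ∀ t < k, 0 ≤ hb t := fun t ht => by
    rw [hhb t ht, ← am_const (k := k) 0]
    exact am_mono fun e => h0 _ _
  have hbN : ∑ s ∈ range k, hb s ≤ N := by
    rw [Finset.sum_range]
    have e1 : ∑ i : Fin k, hb i = avg (fun e : Equiv.Perm (Fin k) => ∑ t : Fin k, h (ch e t) (e t)) := by
      rw [am_sum]
      exact Finset.sum_congr rfl fun i _ => hhb i i.2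
    rw [e1, ← am_const (k := k) N]
    simp only [am_const]
    calc avg (fun e : Equiv.Perm (Fin k) => ∑ t : Fin k, h (ch e t) (e t)) ≤
          avg (fun _ : Equiv.Perm (Fin k) => N) := am_mono hN
      _ = N := am_const N
  have hN0 : 0 ≤ N := (Finset.sum_nonneg fun s hs => hb0 s (Finset.mem_range.1 hs)).trans hbN
  have hH0 : H 0 = 0 := by
    rw [hH]
    simp only [am_ch_zero, hΦ0, am_const]
  have hHk : H k = Φ Finset.univ := by
    rw [hH]
    simp only [am_ch_top, am_const]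
  have hH1 : 0 ≤ H 1 := by
    rw [hH, ← am_const (k := k) 0]
    apply am_mono
    intro e
    rw [show (1:ℕ) = 0 + 1 by rfl, am_ch_succ e hk, am_ch_zero]
    exact hΦ1 _
  have hk0 : (0:ℝ) < k := by exact_mod_cast hk
  -- first differences
  have hD : ∀ t, t < k → p * (1 - η) * t - 4 * p * (∑ s ∈ range t, hb s) -
      ∑ r ∈ range t, 1 / ((k : ℝ) - r - 1) ≤ H (t + 1) - H t := by
    intro t
    induction t with
    | zero =>
      intro _
      simp only [Nat.cast_zero, mul_zero, Finset.range_zero, Finset.sum_empty, sub_zero, zero_add]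
      linarith
    | succ t ih =>
      intro ht1
      have h1 := ih (by omega)
      have h2 := am_second Φ h hp hη1 h0 hsum ht1
      rw [← hhb t (by omega), ← hH, ← hH, ← hH] at h2
      rw [Finset.sum_range_succ, Finset.sum_range_succ]
      push_cast
      have e1 : t + 1 + 1 = t + 2 := rfl
      rw [e1]
      linarith
  have hD' : ∀ s, s < k → p * (1 - η) * s - 4 * p * N - ∑ r ∈ range s, 1 / ((k : ℝ) - r - 1) ≤ H (s + 1) - H s := by
    intro s hs
    refine le_trans ?_ (hD s hs)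
    have e1 : ∑ r ∈ range s, hb r ≤ N := by
      refine le_trans ?_ hbN
      exact Finset.sum_le_sum_of_subset_of_nonneg (Finset.range_mono hs.le)
        fun i hi _ => hb0 i (Finset.mem_range.1 hi)
    have e2 : 4 * p * (∑ r ∈ range s, hb r) ≤ 4 * p * N := mul_le_mul_of_nonneg_left e1 (by positivity)
    linarith
  have hc0 : ∀ r ∈ range k, 0 ≤ 1 / ((k : ℝ) - r - 1) := by
    intro r hr
    have : ((r + 1 : ℕ) : ℝ) ≤ k := by exact_mod_cast Finset.mem_range.1 hr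
    push_cast at this
    apply div_nonneg zero_le_one
    linarith
  have h3 : ∑ s ∈ Ico t k, (p * (1 - η) * s - 4 * p * N - ∑ r ∈ range s, 1 / ((k : ℝ) - r - 1)) ≤ H k - H t := by
    rw [← Finset.sum_Ico_sub H ht]
    exact Finset.sum_le_sum fun s hs => hD' s (Finset.mem_Ico.1 hs).2
  rw [Finset.sum_sub_distrib, Finset.sum_sub_distrib, ← Finset.mul_sum, am_arith t k ht, Finset.sum_const,
    Nat.card_Ico, nsmul_eq_mul, hHk] at h3
  have h4 : ∑ s ∈ Ico t k, ∑ r ∈ range s, 1 / ((k : ℝ) - r - 1) ≤ k := by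
    refine le_trans ?_ (am_harm_le (k := k))
    apply Finset.sum_le_sum_of_subset_of_nonneg
    · intro s hs
      rw [Finset.mem_range]
      exact (Finset.mem_Ico.1 hs).2
    · intro s hs _
      exact Finset.sum_nonneg fun r hr => hc0 r (Finset.mem_range.2
        ((Finset.mem_range.1 hr).trans (Finset.mem_range.1 hs)))
  have h5 : ((k - t : ℕ) : ℝ) * (4 * p * N) ≤ k * (4 * p * N) := by
    apply mul_le_mul_of_nonneg_right _ (by positivity)
    exact_mod_cast Nat.sub_le k t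
  rw [← hH]
  have ht2 : (t : ℝ) ≤ (t : ℝ) ^ 2 := by
    rcases Nat.eq_zero_or_pos t with h | h
    · subst h; simp
    · have : (1:ℝ) ≤ t := by exact_mod_cast h
      nlinarith
  have ht0 : (0:ℝ) ≤ t := Nat.cast_nonneg t
  have h6 : p * (1 - η) * (((k : ℝ) * (k - 1) - t * (t - 1)) / 2) ≥
      p / 2 * (k : ℝ) ^ 2 - p / 2 * k - p / 2 * (t : ℝ) ^ 2 - p / 2 * η * (k : ℝ) ^ 2 := by
    have e1 : 0 ≤ p * t := mul_nonneg hp ht0
    have e2 : 0 ≤ p * η * (k + (t ^ 2 - t)) := mul_nonneg (mul_nonneg hp hη) (by linarith)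
    nlinarith
  nlinarith

/-- `∑ tᵢ (tᵢ₊₁ - tᵢ)` for `tᵢ = ⌊i k / M⌋` -/
theorem am_grid {M : ℕ} (hM : 1 ≤ M) :
    ((k : ℝ) ^ 2 - k * (k / M + 1)) / 2 ≤
      ∑ i ∈ range M, ((i * k / M : ℕ) : ℝ) * ((((i + 1) * k / M : ℕ) : ℝ) - ((i * k / M : ℕ) : ℝ)) := by
  have hM0 : (0:ℝ) < M := by exact_mod_cast hM
  obtain ⟨T, hT⟩ : ∃ T : ℕ → ℝ, ∀ i, T i = ((i * k / M : ℕ) : ℝ) := ⟨_, fun _ => rfl⟩
  have hT' : ∀ i, (((i + 1) * k / M : ℕ) : ℝ) = T (i + 1) := fun i => (hT (i + 1)).symm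
  simp_rw [hT', ← hT]
  have hmono : ∀ i, T i ≤ T (i + 1) := by
    intro i
    rw [hT, hT]
    exact_mod_cast Nat.div_le_div_right (Nat.mul_le_mul_right k (by omega))
  have hstep : ∀ i, T (i + 1) - T i ≤ k / M + 1 := by
    intro i
    have h1 : T (i + 1) ≤ ((i + 1 : ℕ) * k : ℝ) / M := by
      rw [hT]
      have := @Nat.cast_div_le ℝ _ _ _ ((i + 1) * k) M
      push_cast at this ⊢
      exact this
    have h2 : ((i : ℝ) * k) / M - 1 < T i := by
      rw [hT]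
      have h3 : i * k < (i * k / M + 1) * M := by
        have := Nat.lt_div_mul_add (a := i * k) hM
        linarith
      have h4 : (i : ℝ) * k < (((i * k / M : ℕ) : ℝ) + 1) * M := by exact_mod_cast h3
      rw [sub_lt_iff_lt_add, div_lt_iff₀ hM0]
      exact h4
    push_cast at h1
    have h5 : ((i : ℝ) + 1) * k / M = i * k / M + k / M := by ring
    linarith
  have h0 : T 0 = 0 := by rw [hT]; simp
  have hTM : T M = k := by
    rw [hT, Nat.mul_div_cancel_left k hM]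
  have h1 : ∑ i ∈ range M, (T (i + 1) ^ 2 - T i ^ 2) = (k : ℝ) ^ 2 := by
    rw [Finset.sum_range_sub (fun i => T i ^ 2), hTM, h0]
    ring
  have h2 : ∑ i ∈ range M, (T (i + 1) - T i) = k := by
    rw [Finset.sum_range_sub T, hTM, h0, sub_zero]
  have h3 : ∑ i ∈ range M, (T (i + 1) - T i) ^ 2 ≤ (k / M + 1) * k := by
    rw [← h2, Finset.mul_sum, h2]
    apply Finset.sum_le_sum
    intro i _
    rw [sq]
    exact mul_le_mul_of_nonneg_right (hstep i) (sub_nonneg.2 (hmono i))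
  have h4 : ∑ i ∈ range M, T i * (T (i + 1) - T i) =
      (∑ i ∈ range M, (T (i + 1) ^ 2 - T i ^ 2) - ∑ i ∈ range M, (T (i + 1) - T i) ^ 2) / 2 := by
    rw [← Finset.sum_sub_distrib, Finset.sum_div]
    apply Finset.sum_congr rfl
    intro i _
    ring
  rw [h4, h1]
  linarith

end am

/-- **The entropy of every subset.** -/
theorem avg_main {k : ℕ} (hk : 1 ≤ k) (Φ : Finset (Fin k) → ℝ) (h : Finset (Fin k) → Fin k → ℝ)
    {p δ η N E : ℝ} (hp : 0 ≤ p) (hη : 0 ≤ η) (hη1 : η ≤ 1) (h0 : ∀ S i, 0 ≤ h S i)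
    (hpair : ∀ (S : Finset (Fin k)) (i j : Fin k), i ∉ S → j ∉ S → i ≠ j →
      Φ (insert i S) + Φ (insert j S) ≤ Φ (insert i (insert j S)) + Φ S)
    (hsum : ∀ S : Finset (Fin k), p * ((k : ℝ) - S.card) ^ 2 * (1 - η) -
        2 * p * ((k : ℝ) - S.card) * ∑ i ∈ Sᶜ, h S i - ((k : ℝ) - S.card) ≤
      ∑ i ∈ Sᶜ, ∑ j ∈ Sᶜ.erase i,
        (Φ (insert i (insert j S)) + Φ S - Φ (insert i S) - Φ (insert j S)))
    (hN : ∀ e : Equiv.Perm (Fin k), ∑ t : Fin k, h (ch e t) (e t) ≤ N)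
    (hΦ : ∀ S : Finset (Fin k), p / 2 * (S.card : ℝ) ^ 2 - δ ≤ Φ S)
    (hΦ0 : Φ ∅ = 0) (hΦ1 : ∀ i, 0 ≤ Φ {i})
    (hE : Φ Finset.univ - p / 2 * (k : ℝ) ^ 2 + p / 2 * η * (k : ℝ) ^ 2 + p / 2 * k +
      (4 * p * N + 1) * k ≤ E)
    (L : Finset (Fin k)) {M : ℕ} (hM : 1 ≤ M) :
    Φ L ≤ Φ Finset.univ - p / 2 * (k * ((k : ℝ) - L.card)) +
      p / 2 * (((k : ℝ) - L.card) * (k / M + 1)) + M * (δ + E) := by
  have hM0 : (0:ℝ) < M := by exact_mod_cast hM
  have hk0 : (0:ℝ) < k := by exact_mod_cast hk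
  have htk : ∀ i < M + 1, i * k / M ≤ k := by
    intro i hi
    apply Nat.div_le_of_le_mul
    exact Nat.mul_le_mul_right k (by omega)
  have htm : ∀ i, i * k / M ≤ (i + 1) * k / M := fun i =>
    Nat.div_le_div_right (Nat.mul_le_mul_right k (by omega))
  -- the inequality for one order
  have h1 : ∀ e : Equiv.Perm (Fin k), Φ L + ∑ i ∈ range M,
      (p / 2 * ((i * k / M : ℕ) : ℝ) ^ 2 + p * ((i * k / M : ℕ) : ℝ) *
        ((ch e ((i + 1) * k / M) \ (L ∪ ch e (i * k / M))).card : ℝ) - δ - Φ (ch e (i * k / M))) ≤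
      Φ Finset.univ := by
    intro e
    have h2 := chain_ineq Φ hpair (N := M) (fun i => ch e (i * k / M))
      (fun i j hij => am_ch_mono e (Nat.div_le_div_right (Nat.mul_le_mul_right k hij)))
      (by simp only [zero_mul, Nat.zero_div, am_ch_zero])
      (by simp only [Nat.mul_div_cancel_left k hM, am_ch_top]) L
    refine le_trans ?_ h2
    apply add_le_add le_rfl
    apply Finset.sum_le_sum
    intro i hi
    have h3 := hΦ (ch e (i * k / M) ∪ (ch e ((i + 1) * k / M) \ L))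
    have h4 : (ch e (i * k / M) ∪ (ch e ((i + 1) * k / M) \ L)).card =
        i * k / M + (ch e ((i + 1) * k / M) \ (L ∪ ch e (i * k / M))).card := by
      have e1 : ch e (i * k / M) ∪ (ch e ((i + 1) * k / M) \ L) =
          ch e (i * k / M) ∪ (ch e ((i + 1) * k / M) \ (L ∪ ch e (i * k / M))) := by
        ext x
        simp only [Finset.mem_union, Finset.mem_sdiff]
        tauto
      rw [e1, Finset.card_union_of_disjoint, am_card e (htk i (by rw [Finset.mem_range] at hi; omega))]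
      rw [Finset.disjoint_left]
      intro x hx hx'
      rw [Finset.mem_sdiff, Finset.mem_union] at hx'
      exact hx'.2 (Or.inr hx)
    rw [h4] at h3
    push_cast at h3 ⊢
    have h5 : 0 ≤ p / 2 * ((ch e ((i + 1) * k / M) \ (L ∪ ch e (i * k / M))).card : ℝ) ^ 2 := by positivity
    nlinarith
  -- average
  have h2 : avg (fun e : Equiv.Perm (Fin k) => Φ L + ∑ i ∈ range M,
      (p / 2 * ((i * k / M : ℕ) : ℝ) ^ 2 + p * ((i * k / M : ℕ) : ℝ) *
        ((ch e ((i + 1) * k / M) \ (L ∪ ch e (i * k / M))).card : ℝ) - δ - Φ (ch e (i * k / M)))) ≤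
      Φ Finset.univ := by
    calc _ ≤ avg (fun _ : Equiv.Perm (Fin k) => Φ Finset.univ) := am_mono h1
      _ = _ := am_const _
  rw [am_add, am_const, am_sum] at h2
  have h3 : ∀ i ∈ range M, p * ((k : ℝ) - L.card) / k *
      (((i * k / M : ℕ) : ℝ) * ((((i + 1) * k / M : ℕ) : ℝ) - ((i * k / M : ℕ) : ℝ))) - δ - E ≤
      avg (fun e : Equiv.Perm (Fin k) => p / 2 * ((i * k / M : ℕ) : ℝ) ^ 2 + p * ((i * k / M : ℕ) : ℝ) *
        ((ch e ((i + 1) * k / M) \ (L ∪ ch e (i * k / M))).card : ℝ) - δ - Φ (ch e (i * k / M))) := by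
    intro i hi
    rw [Finset.mem_range] at hi
    rw [am_sub, am_sub, am_add, am_const, am_const, am_mul]
    have h4 := avg_card (htm i) (htk (i + 1) (by omega)) L
    have h5 := am_first hk Φ h hp hη hη1 h0 hsum hN hΦ0 hΦ1 hE (htk i (by omega))
    have h6 : avg (fun e : Equiv.Perm (Fin k) => ((ch e ((i + 1) * k / M) \ (L ∪ ch e (i * k / M))).card : ℝ)) =
        ((((i + 1) * k / M : ℕ) : ℝ) - ((i * k / M : ℕ) : ℝ)) * ((k : ℝ) - L.card) / k := by
      rw [eq_div_iff hk0.ne', mul_comm]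
      exact h4
    rw [h6]
    have h7 : p * ((i * k / M : ℕ) : ℝ) * (((((i + 1) * k / M : ℕ) : ℝ) - ((i * k / M : ℕ) : ℝ)) * ((k : ℝ) - L.card) / k) =
        p * ((k : ℝ) - L.card) / k * (((i * k / M : ℕ) : ℝ) * ((((i + 1) * k / M : ℕ) : ℝ) - ((i * k / M : ℕ) : ℝ))) := by
      ring
    rw [h7]
    linarith
  have h4 := Finset.sum_le_sum h3
  rw [Finset.sum_sub_distrib, Finset.sum_sub_distrib, ← Finset.mul_sum, Finset.sum_const, Finset.sum_const,
    Finset.card_range, nsmul_eq_mul, nsmul_eq_mul] at h4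
  have hL : (L.card : ℝ) ≤ k := by
    have := Finset.card_le_univ L
    rw [Fintype.card_fin] at this
    exact_mod_cast this
  have h5 : p * ((k : ℝ) - L.card) / k * (((k : ℝ) ^ 2 - k * (k / M + 1)) / 2) ≤
      p * ((k : ℝ) - L.card) / k * ∑ i ∈ range M,
        ((i * k / M : ℕ) : ℝ) * ((((i + 1) * k / M : ℕ) : ℝ) - ((i * k / M : ℕ) : ℝ)) := by
    apply mul_le_mul_of_nonneg_left (am_grid hM)
    exact div_nonneg (mul_nonneg hp (sub_nonneg.2 hL)) hk0.le
  have h6 : p * ((k : ℝ) - L.card) / k * (((k : ℝ) ^ 2 - k * (k / M + 1)) / 2) =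
      p / 2 * (k * ((k : ℝ) - L.card)) - p / 2 * (((k : ℝ) - L.card) * (k / M + 1)) := by
    field_simp
  linarith

end Pool.Agent.Helper63.SM
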